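import Pool.Agent.Q2.BP.Crit

/-!
# A verified checker for the small degrees
-/

namespace Q2.BP

open Polynomial

/-- If `p'(z) ≠ 0` then some root is close to `z`. -/
theorem exists_root_near {P : ℂ[X]} {z : ℂ} (hz : P.derivative.eval z ≠ 0) :
    ∃ w : ℂ, P.eval w = 0 ∧ ‖z - w‖ * ‖P.derivative.eval z‖ ≤ P.natDegree * ‖P.eval z‖ := by
  classical
  by_cases h0 : P.eval z = 0
  · exact ⟨z, h0, by simp [h0]⟩
  have hsum := (IsAlgClosed.splits P).eval_derivative_div_eval_of_ne_zero h0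
  have hP0 : P ≠ 0 := by
    rintro rfl
    simp at h0
  have hne : P.roots.toFinset.Nonempty := by
    rw [Finset.nonempty_iff_ne_empty]
    intro h
    have h1 : P.roots = 0 := by
      rw [← Multiset.toFinset_eq_empty]; exact h
    rw [h1] at hsum
    simp at hsum
    rcases hsum with h | h
    · exact hz h
    · exact h0 h
  obtain ⟨w, hw, hmin⟩ := Finset.exists_min_image P.roots.toFinset (fun w => ‖z - w‖) hne
  have hwr : P.eval w = 0 := by
    rw [Multiset.mem_toFinset, mem_roots hP0] at hw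
    exact hw
  refine ⟨w, hwr, ?_⟩
  have hzw : 0 < ‖z - w‖ := by
    rw [norm_pos_iff, sub_ne_zero]
    rintro rfl
    exact h0 hwr
  have h1 : ‖P.derivative.eval z / P.eval z‖ ≤ P.natDegree * (1 / ‖z - w‖) := by
    rw [hsum]
    refine (norm_multiset_sum_le _).trans ?_
    rw [Multiset.map_map]
    have h2 : ((P.roots.map ((fun x => ‖x‖) ∘ fun z_1 => 1 / (z - z_1)))).sum
        ≤ Multiset.card (P.roots.map ((fun x => ‖x‖) ∘ fun z_1 => 1 / (z - z_1)))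
          • (1 / ‖z - w‖) := by
      apply Multiset.sum_le_card_nsmul
      intro x hx
      rw [Multiset.mem_map] at hx
      obtain ⟨v, hv, rfl⟩ := hx
      simp only [Function.comp_apply, norm_div, norm_one]
      apply one_div_le_one_div_of_le hzw
      exact hmin v (Multiset.mem_toFinset.mpr hv)
    refine h2.trans ?_
    rw [Multiset.card_map, nsmul_eq_mul]
    have h3 : (Multiset.card P.roots : ℝ) ≤ P.natDegree := by exact_mod_cast P.card_roots'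
    gcongr
  rw [norm_div] at h1
  have hn0 : 0 < ‖P.eval z‖ := norm_pos_iff.mpr h0
  rw [div_le_iff₀ hn0] at h1
  calc ‖z - w‖ * ‖P.derivative.eval z‖
      ≤ ‖z - w‖ * (P.natDegree * (1 / ‖z - w‖) * ‖P.eval z‖) := by gcongr
    _ = P.natDegree * ‖P.eval z‖ := by field_simp

/-- absolute value of a rational -/
def qabs (q : ℚ) : ℚ := if 0 ≤ q then q else -q

lemma qabs_cast (q : ℚ) : ((qabs q : ℚ) : ℝ) = |(q : ℝ)| := by
  unfold qabs
  split_ifs with h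
  · rw [abs_of_nonneg]; exact_mod_cast h
  · push Not at h
    rw [abs_of_neg]
    · push_cast; ring
    · exact_mod_cast h

/-- A disc with rational centre and radius. -/
structure Ball where
  re : ℚ
  im : ℚ
  e : ℚ

/-- centre -/
noncomputable def Ball.cen (A : Ball) : ℂ := ⟨(A.re : ℝ), (A.im : ℝ)⟩

/-- product -/
def Ball.mul (A B : Ball) : Ball :=
  ⟨A.re * B.re - A.im * B.im, A.re * B.im + A.im * B.re,
   (qabs A.re + qabs A.im) * B.e + (qabs B.re + qabs B.im) * A.e + A.e * B.e⟩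

/-- power -/
def Ball.pow (A : Ball) : ℕ → Ball
  | 0 => ⟨1, 0, 0⟩
  | n + 1 => (A.pow n).mul A

/-- subtract a natural number -/
def Ball.sub (A : Ball) (D : ℕ) : Ball := ⟨A.re - D, A.im, A.e⟩

/-- `|centre|²` -/
def Ball.nsq (A : Ball) : ℚ := A.re * A.re + A.im * A.im

/-- membership -/
def Ball.mem (A : Ball) (z : ℂ) : Prop := ‖z - A.cen‖ ≤ A.e

lemma Ball.cen_mul (A B : Ball) : (A.mul B).cen = A.cen * B.cen := by
  apply Complex.ext
  · simp [Ball.cen, Ball.mul]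
  · simp [Ball.cen, Ball.mul]

lemma Ball.cen_pow (A : Ball) (n : ℕ) : (A.pow n).cen = A.cen ^ n := by
  induction n with
  | zero =>
    apply Complex.ext <;> simp [Ball.cen, Ball.pow]
  | succ n ih => rw [Ball.pow, Ball.cen_mul, ih, pow_succ]

lemma Ball.norm_cen_le (A : Ball) : ‖A.cen‖ ≤ ((qabs A.re + qabs A.im : ℚ) : ℝ) := by
  push_cast
  rw [qabs_cast, qabs_cast]
  exact Complex.norm_le_abs_re_add_abs_im _

lemma Ball.norm_cen_sq (A : Ball) : ‖A.cen‖ ^ 2 = (A.nsq : ℝ) := by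
  rw [← Complex.normSq_eq_norm_sq, Complex.normSq_apply]
  simp [Ball.cen, Ball.nsq]

lemma Ball.mem_mul {A B : Ball} {z w : ℂ} (hz : A.mem z) (hw : B.mem w) :
    (A.mul B).mem (z * w) := by
  unfold Ball.mem at *
  rw [Ball.cen_mul]
  have h : z * w - A.cen * B.cen = A.cen * (w - B.cen) + B.cen * (z - A.cen)
      + (z - A.cen) * (w - B.cen) := by ring
  rw [h]
  have hA := A.norm_cen_le
  have hB := B.norm_cen_le
  have hAe : (0:ℝ) ≤ A.e := (norm_nonneg _).trans hz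
  have hBe : (0:ℝ) ≤ B.e := (norm_nonneg _).trans hw
  have hA0 := (norm_nonneg _).trans hA
  have hB0 := (norm_nonneg _).trans hB
  calc ‖A.cen * (w - B.cen) + B.cen * (z - A.cen) + (z - A.cen) * (w - B.cen)‖
      ≤ ‖A.cen‖ * ‖w - B.cen‖ + ‖B.cen‖ * ‖z - A.cen‖ + ‖z - A.cen‖ * ‖w - B.cen‖ := by
        refine (norm_add_le _ _).trans ?_
        refine add_le_add ((norm_add_le _ _).trans ?_) (norm_mul_le _ _)
        exact add_le_add (norm_mul_le _ _) (norm_mul_le _ _)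
    _ ≤ ((qabs A.re + qabs A.im : ℚ) : ℝ) * B.e + ((qabs B.re + qabs B.im : ℚ) : ℝ) * A.e
        + A.e * B.e := by gcongr
    _ = ((A.mul B).e : ℝ) := by simp [Ball.mul]

lemma Ball.mem_pow {A : Ball} {z : ℂ} (hz : A.mem z) (n : ℕ) : (A.pow n).mem (z ^ n) := by
  induction n with
  | zero =>
    unfold Ball.mem
    rw [Ball.cen_pow]
    simp [Ball.pow]
  | succ n ih => rw [Ball.pow, pow_succ]; exact Ball.mem_mul ih hz

lemma Ball.mem_sub {A : Ball} {z : ℂ} (hz : A.mem z) (D : ℕ) : (A.sub D).mem (z - D) := by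
  unfold Ball.mem at *
  have h : (A.sub D).cen = A.cen - D := by
    apply Complex.ext <;> simp [Ball.cen, Ball.sub]
  rw [h]
  have h2 : z - D - (A.cen - D) = z - A.cen := by ring
  rw [h2]
  exact hz

/-- state of the computation: bounds for the orbit and a disc for the conjugate orbit -/
structure St where
  tl : ℚ
  tu : ℚ
  w : Ball

/-- one step with digit `D` -/
def step (Bl Bu : ℚ) (g : Ball) (s : St) (D : ℕ) : Option St :=
  if 0 ≤ s.tl ∧ (D : ℚ) ≤ Bl * s.tl ∧ Bu * s.tu < D + 1 then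
    some ⟨Bl * s.tl - D, Bu * s.tu - D, (g.mul s.w).sub D⟩ else none

/-- several steps -/
def run (Bl Bu : ℚ) (g : Ball) : List ℕ → St → Option St
  | [], s => some s
  | D :: L, s => (step Bl Bu g s D).bind (run Bl Bu g L)

/-- the initial state -/
def St.init : St := ⟨1, 1, ⟨1, 0, 0⟩⟩

/-- correctness of a state -/
def St.ok (β : ℝ) (γ : ℂ) (n : ℕ) (s : St) : Prop :=
  (s.tl : ℝ) ≤ tt β n ∧ tt β n ≤ (s.tu : ℝ) ∧ s.w.mem (ww β γ n)

lemma St.init_ok (β : ℝ) (γ : ℂ) : St.init.ok β γ 0 := by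
  refine ⟨by simp [St.init, tt], by simp [St.init, tt], ?_⟩
  unfold Ball.mem
  have : (St.init.w).cen = 1 := by
    apply Complex.ext <;> simp [St.init, Ball.cen]
  rw [this]
  simp [ww, St.init]

lemma step_ok {β : ℝ} {γ : ℂ} {Bl Bu : ℚ} {g : Ball} (h1 : (Bl : ℝ) ≤ β) (h2 : β ≤ Bu)
    (hBl : 0 ≤ Bl) (hg : g.mem γ) {n : ℕ} {s s' : St} {D : ℕ} (hs : s.ok β γ n)
    (h : step Bl Bu g s D = some s') : s'.ok β γ (n + 1) := by
  unfold step at h
  split_ifs at h with hc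
  obtain ⟨hc1, hc2, hc3⟩ := hc
  simp only [Option.some.injEq] at h
  subst h
  obtain ⟨hs1, hs2, hs3⟩ := hs
  have hc1' : (0:ℝ) ≤ s.tl := by exact_mod_cast hc1
  have hc2' : (D:ℝ) ≤ Bl * s.tl := by exact_mod_cast hc2
  have hc3' : (Bu:ℝ) * s.tu < D + 1 := by exact_mod_cast hc3
  have hBl' : (0:ℝ) ≤ Bl := by exact_mod_cast hBl
  have ht0 := tt_nonneg β n
  have h3 : (Bl:ℝ) * s.tl ≤ β * tt β n := by
    apply mul_le_mul h1 hs1 hc1' (hBl'.trans h1)
  have h4 : β * tt β n ≤ Bu * s.tu := by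
    apply mul_le_mul h2 hs2 ht0 ((hBl'.trans h1).trans h2)
  have hfl : dg β n = D := by
    unfold dg
    rw [Int.floor_eq_iff]
    push_cast
    constructor <;> linarith
  refine ⟨?_, ?_, ?_⟩
  · rw [tt_succ, hfl]; push_cast; linarith
  · rw [tt_succ, hfl]; push_cast; linarith
  · rw [ww_succ, hfl]
    push_cast
    exact Ball.mem_sub (Ball.mem_mul hg hs3) D

lemma run_ok {β : ℝ} {γ : ℂ} {Bl Bu : ℚ} {g : Ball} (h1 : (Bl : ℝ) ≤ β) (h2 : β ≤ Bu)
    (hBl : 0 ≤ Bl) (hg : g.mem γ) (L : List ℕ) {n : ℕ} {s s' : St} (hs : s.ok β γ n)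
    (h : run Bl Bu g L s = some s') : s'.ok β γ (n + L.length) := by
  induction L generalizing n s with
  | nil =>
    simp only [run, Option.some.injEq] at h
    subst h
    simpa using hs
  | cons D L ih =>
    simp only [run] at h
    rw [Option.bind_eq_some_iff] at h
    obtain ⟨s1, h3, h4⟩ := h
    have h5 := step_ok h1 h2 hBl hg hs h3
    have h6 := ih h5 h4
    have : n + (D :: L).length = n + 1 + L.length := by simp; ring
    rw [this]
    exact h6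

/-- Data for one power: `a`, `c`, a digit bound, the digits. -/
structure Row where
  a : ℚ
  c : ℚ
  D : ℕ
  digs : List ℕ

/-- Data for one degree. -/
structure Dat where
  bl : ℚ
  bu : ℚ
  X : Ball
  rl : ℚ

/-- potential check -/
def potOk (Bl Bu Rl : ℚ) (r : Row) : Bool :=
  if r.a = 0 then decide (Bu < r.D + 1) && decide ((r.D : ℚ) ≤ r.c * (Rl - 1))
  else decide (Bu < 2) && decide (Rl ≤ Bu) && decide (0 ≤ r.a) &&
    decide (r.a * (Bu - Rl) ≤ Bl * (r.c * (Rl - 1))) &&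
    decide (1 - r.a + r.a * (Bu - Rl) ≤ r.c * (Rl - 1))

/-- check for one power `k` -/
def rowOk (Y : Dat) (k : ℕ) (r : Row) : Bool :=
  decide (0 ≤ r.c) && decide (1 < Y.rl ^ k) && potOk (Y.bl ^ k) (Y.bu ^ k) (Y.rl ^ k) r &&
  match run (Y.bl ^ k) (Y.bu ^ k) (Y.X.pow k) r.digs St.init with
  | none => false
  | some s => decide (0 ≤ r.a * s.tu + r.c + s.w.e) &&
      decide ((r.a * s.tu + r.c + s.w.e) * (r.a * s.tu + r.c + s.w.e) < s.w.nsq)

/-- check for all powers `≤ K` -/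
def rowsOk (Y : Dat) : ℕ → List Row → Bool
  | _, [] => true
  | k, r :: L => rowOk Y k r && rowsOk Y (k + 1) L

/-- check of the enclosures of the roots -/
def datOk (Y : Dat) (d : ℕ) (K : ℕ) : Bool :=
  decide (1 < Y.bl) && decide (Y.bl ^ d < Y.bl + 1) && decide (Y.bu + 1 < Y.bu ^ d) &&
  decide (1 < Y.bu) && decide (0 ≤ Y.X.e) && decide (1 < Y.rl) &&
  decide ((Y.rl + Y.X.e) * (Y.rl + Y.X.e) ≤ Y.X.nsq) &&
  decide (0 ≤ Y.bl - Y.X.e) &&
  decide (Y.X.nsq < (Y.bl - Y.X.e) * (Y.bl - Y.X.e)) &&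
  decide (Y.rl ^ K + 1 < (Y.rl ^ K) ^ 2) &&
  (let u := Y.X.pow (d - 1)
   let v := u.mul Y.X
   let fr := v.re - Y.X.re - 1
   let fi := v.im - Y.X.im
   let gr := d * u.re - 1
   let gi := d * u.im
   decide ((d : ℚ) * d * (fr * fr + fi * fi) ≤ Y.X.e * Y.X.e * (gr * gr + gi * gi)) &&
   decide (0 < gr * gr + gi * gi))

lemma rowOk_sound {Y : Dat} {k : ℕ} {r : Row} (h : rowOk Y k r = true) {b : ℝ} {x : ℂ}
    (hbl0 : 0 ≤ Y.bl) (hbl : (Y.bl : ℝ) ≤ b) (hbu : b ≤ Y.bu) (hx : Y.X.mem x)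
    (hrl0 : 0 ≤ Y.rl) (hrl : (Y.rl : ℝ) ≤ ‖x‖) (hxb : ‖x‖ ≤ b) (hb : 1 < b) (hk : 1 ≤ k) (M : ℝ) :
    ∃ n, M < ‖ww (b ^ k) (x ^ k) n‖ := by
  unfold rowOk at h
  simp only [Bool.and_eq_true, decide_eq_true_eq] at h
  obtain ⟨⟨⟨hc, hR1⟩, hpot⟩, hrun⟩ := h
  set Bl : ℚ := Y.bl ^ k with hBl
  set Bu : ℚ := Y.bu ^ k with hBu
  set Rl : ℚ := Y.rl ^ k with hRl
  have hbl0' : (0:ℝ) ≤ Y.bl := by exact_mod_cast hbl0
  have hrl0' : (0:ℝ) ≤ Y.rl := by exact_mod_cast hrl0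
  have hb0 : 0 < b := by linarith
  have h1 : (Bl : ℝ) ≤ b ^ k := by
    rw [hBl]; push_cast
    exact pow_le_pow_left₀ hbl0' hbl k
  have h2 : b ^ k ≤ (Bu : ℝ) := by
    rw [hBu]; push_cast
    exact pow_le_pow_left₀ hb0.le hbu k
  have h3 : (Rl : ℝ) ≤ ‖x ^ k‖ := by
    rw [hRl, norm_pow]; push_cast
    exact pow_le_pow_left₀ hrl0' hrl k
  have hR1' : (1:ℝ) < Rl := by exact_mod_cast hR1
  have hRβ : ‖x ^ k‖ ≤ b ^ k := by
    rw [norm_pow]; exact pow_le_pow_left₀ (norm_nonneg _) hxb k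
  have hc' : (0:ℝ) ≤ r.c := by exact_mod_cast hc
  have hBl0 : 0 ≤ Bl := by rw [hBl]; positivity
  have hBl0' : (0:ℝ) ≤ Bl := by exact_mod_cast hBl0
  have hβ1 : 1 < b ^ k := one_lt_pow₀ hb (by omega)
  -- the potential
  have ha : (0:ℝ) ≤ r.a ∧ ∀ t : ℝ, 0 ≤ t → t ≤ 1 →
      (r.a:ℝ) * T (b ^ k) t + r.c ≤ ‖x ^ k‖ * (r.a * t + r.c) - (⌊b ^ k * t⌋ : ℝ) := by
    unfold potOk at hpot
    split_ifs at hpot with ha0
    · simp only [Bool.and_eq_true, decide_eq_true_eq] at hpot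
      obtain ⟨hp1, hp2⟩ := hpot
      have hp1' : (Bu:ℝ) < r.D + 1 := by exact_mod_cast hp1
      have hp2' : (r.D:ℝ) ≤ r.c * (Rl - 1) := by exact_mod_cast hp2
      have ha0' : (r.a:ℝ) = 0 := by exact_mod_cast ha0
      rw [ha0']
      refine ⟨le_rfl, pot_const (D := (r.D : ℤ)) (by linarith) ?_ ?_⟩
      · push_cast; linarith
      · push_cast
        refine hp2'.trans ?_
        gcongr
    · simp only [Bool.and_eq_true, decide_eq_true_eq] at hpot
      obtain ⟨⟨⟨⟨hp1, hp2⟩, hp3⟩, hp4⟩, hp5⟩ := hpot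
      have hp1' : (Bu:ℝ) < 2 := by exact_mod_cast hp1
      have hp2' : (Rl:ℝ) ≤ Bu := by exact_mod_cast hp2
      have hp3' : (0:ℝ) ≤ r.a := by exact_mod_cast hp3
      have hp4' : (r.a:ℝ) * (Bu - Rl) ≤ Bl * (r.c * (Rl - 1)) := by exact_mod_cast hp4
      have hp5' : (1:ℝ) - r.a + r.a * (Bu - Rl) ≤ r.c * (Rl - 1) := by exact_mod_cast hp5
      have h4 : (r.c:ℝ) * (Rl - 1) ≤ r.c * (‖x ^ k‖ - 1) := by gcongr
      have h5 : (0:ℝ) ≤ r.c * (Rl - 1) := mul_nonneg hc' (by linarith)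
      refine ⟨hp3', pot_linear (S := (Bu:ℝ) - Rl) hβ1 (by linarith) (by linarith) (by linarith)
        hp3' ?_ (hp5'.trans h4)⟩
      refine hp4'.trans ?_
      apply mul_le_mul h1 h4 h5 (by linarith)
  split at hrun
  · simp at hrun
  · rename_i s hs
    simp only [Bool.and_eq_true, decide_eq_true_eq] at hrun
    obtain ⟨hr1, hr2⟩ := hrun
    have hok := run_ok h1 h2 hBl0 (Ball.mem_pow hx k) r.digs (St.init_ok (b ^ k) (x ^ k)) hs
    rw [zero_add] at hok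
    obtain ⟨_, ho2, ho3⟩ := hok
    refine escape (by linarith) ha.1 hc' ha.2 (floor_nonneg_of (by linarith))
      (m := r.digs.length) ?_ M
    have hr1' : (0:ℝ) ≤ r.a * s.tu + r.c + s.w.e := by exact_mod_cast hr1
    have hr2' : ((r.a:ℝ) * s.tu + r.c + s.w.e) * (r.a * s.tu + r.c + s.w.e) < s.w.nsq := by
      exact_mod_cast hr2
    rw [← s.w.norm_cen_sq] at hr2'
    have h6 : (r.a:ℝ) * s.tu + r.c + s.w.e < ‖s.w.cen‖ := by
      apply lt_of_pow_lt_pow_left₀ 2 (norm_nonneg _)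
      rw [sq]; exact hr2'
    unfold Ball.mem at ho3
    have h7 : ‖s.w.cen‖ ≤ ‖ww (b ^ k) (x ^ k) r.digs.length‖
        + ‖ww (b ^ k) (x ^ k) r.digs.length - s.w.cen‖ := by
      have := norm_sub_norm_le (s.w.cen) (ww (b ^ k) (x ^ k) r.digs.length)
      rw [norm_sub_rev] at this
      linarith
    have h8 : (r.a:ℝ) * tt (b ^ k) r.digs.length ≤ r.a * s.tu :=
      mul_le_mul_of_nonneg_left ho2 ha.1
    linarith

lemma rowsOk_sound {Y : Dat} (L : List Row) {k : ℕ} (h : rowsOk Y k L = true) {j : ℕ}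
    (hj1 : k ≤ j) (hj2 : j < k + L.length) : ∃ r, rowOk Y j r = true := by
  induction L generalizing k with
  | nil => simp at hj2; omega
  | cons r L ih =>
    simp only [rowsOk, Bool.and_eq_true] at h
    rcases Nat.eq_or_lt_of_le hj1 with rfl | hlt
    · exact ⟨r, h.1⟩
    · exact ih h.2 hlt (by simp at hj2; omega)

lemma mono_aux' {d : ℕ} (hd : 2 ≤ d) {u v : ℝ} (hu : 1 < u) (huv : u ≤ v) :
    u ^ d - u ≤ v ^ d - v := by
  obtain ⟨e, rfl⟩ : ∃ e, d = e + 1 := ⟨d - 1, by omega⟩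
  have h1 : 1 ≤ u ^ e := one_le_pow₀ hu.le
  have h2 : u ^ e ≤ v ^ e := by gcongr
  rw [pow_succ, pow_succ]
  nlinarith

/-- Soundness of the checker. -/
theorem dat_sound {Y : Dat} {d : ℕ} (hd : 2 ≤ d) {L : List Row}
    (hD : datOk Y d (L.length + 1) = true) (hL : rowsOk Y 1 L = true)
    {b : ℝ} (hb : 1 < b) (hbd : b ^ d = b + 1) {k : ℕ} (hk : 1 ≤ k) :
    ∃ x : ℂ, x ^ d = x + 1 ∧ ∀ M : ℝ, ∃ n, M < ‖ww (b ^ k) (x ^ k) n‖ := by
  unfold datOk at hD
  simp only [Bool.and_eq_true, decide_eq_true_eq] at hD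
  obtain ⟨⟨⟨⟨⟨⟨⟨⟨⟨⟨h1, h2⟩, h3⟩, h4⟩, h5⟩, h6⟩, h7⟩, h8⟩, h9⟩, h10⟩, h11, h12⟩ := hD
  have h1' : (1:ℝ) < Y.bl := by exact_mod_cast h1
  have h2' : (Y.bl:ℝ) ^ d < Y.bl + 1 := by exact_mod_cast h2
  have h3' : (Y.bu:ℝ) + 1 < (Y.bu:ℝ) ^ d := by exact_mod_cast h3
  have h4' : (1:ℝ) < Y.bu := by exact_mod_cast h4
  have h5' : (0:ℝ) ≤ Y.X.e := by exact_mod_cast h5
  have h6' : (1:ℝ) < Y.rl := by exact_mod_cast h6
  have h7' : ((Y.rl:ℝ) + Y.X.e) * (Y.rl + Y.X.e) ≤ Y.X.nsq := by exact_mod_cast h7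
  have h8' : (0:ℝ) ≤ Y.bl - Y.X.e := by exact_mod_cast h8
  have h9' : (Y.X.nsq:ℝ) < (Y.bl - Y.X.e) * (Y.bl - Y.X.e) := by exact_mod_cast h9
  have h10' : (Y.rl:ℝ) ^ (L.length + 1) + 1 < ((Y.rl:ℝ) ^ (L.length + 1)) ^ 2 := by
    exact_mod_cast h10
  have hbl : (Y.bl:ℝ) ≤ b := by
    by_contra h
    push Not at h
    have := mono_aux' hd hb h.le
    linarith
  have hbu : b ≤ Y.bu := by
    by_contra h
    push Not at h
    have := mono_aux' hd h4' h.le
    linarith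
  -- the complex root
  set P : ℂ[X] := X ^ d - X - 1 with hP
  have hPe : ∀ z : ℂ, P.eval z = z ^ d - z - 1 := by intro z; simp [hP]
  have hPd : ∀ z : ℂ, P.derivative.eval z = d * z ^ (d - 1) - 1 := by
    intro z; simp [hP, derivative_X_pow]
  have hdeg : P.natDegree ≤ d := by
    rw [hP]
    refine (natDegree_sub_le _ _).trans ?_
    refine max_le ((natDegree_sub_le _ _).trans ?_) (by simp)
    refine max_le (by simp) (by simp; omega)
  set z0 := Y.X.cen with hz0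
  set u := Y.X.pow (d - 1) with hu
  set v := u.mul Y.X with hv
  have hucen : u.cen = z0 ^ (d - 1) := Ball.cen_pow _ _
  have hvcen : v.cen = z0 ^ d := by
    rw [hv, Ball.cen_mul, hucen, ← pow_succ]; congr 1; omega
  have hPz : P.eval z0 = ⟨((v.re - Y.X.re - 1 : ℚ) : ℝ), ((v.im - Y.X.im : ℚ) : ℝ)⟩ := by
    rw [hPe, ← hvcen, hz0]
    apply Complex.ext <;> simp [Ball.cen]
  have hPdz : P.derivative.eval z0 =
      ⟨((d * u.re - 1 : ℚ) : ℝ), ((d * u.im : ℚ) : ℝ)⟩ := by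
    rw [hPd, ← hucen]
    apply Complex.ext <;> simp [Ball.cen]
  have hnP : ‖P.eval z0‖ ^ 2 = (((v.re - Y.X.re - 1) * (v.re - Y.X.re - 1)
      + (v.im - Y.X.im) * (v.im - Y.X.im) : ℚ) : ℝ) := by
    rw [hPz, ← Complex.normSq_eq_norm_sq, Complex.normSq_apply]; push_cast; ring
  have hnD : ‖P.derivative.eval z0‖ ^ 2 = (((d * u.re - 1) * (d * u.re - 1)
      + (d * u.im) * (d * u.im) : ℚ) : ℝ) := by
    rw [hPdz, ← Complex.normSq_eq_norm_sq, Complex.normSq_apply]; push_cast; ring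
  have hD0 : 0 < ‖P.derivative.eval z0‖ := by
    have : 0 < ‖P.derivative.eval z0‖ ^ 2 := by rw [hnD]; exact_mod_cast h12
    rcases (norm_nonneg (P.derivative.eval z0)).lt_or_eq with h | h
    · exact h
    · rw [← h] at this; norm_num at this
  obtain ⟨x, hx0, hx1⟩ := exists_root_near (P := P) (z := z0) (norm_pos_iff.mp hD0)
  have hmem : ‖x - z0‖ ≤ Y.X.e := by
    have h13 : ((d:ℝ) * ‖P.eval z0‖) ^ 2 ≤ (Y.X.e * ‖P.derivative.eval z0‖) ^ 2 := by
      rw [mul_pow, mul_pow, hnP, hnD]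
      have : ((d : ℝ) * d * (((v.re - Y.X.re - 1) * (v.re - Y.X.re - 1)
          + (v.im - Y.X.im) * (v.im - Y.X.im) : ℚ) : ℝ)) ≤ (Y.X.e * Y.X.e : ℝ) *
          (((d * u.re - 1) * (d * u.re - 1) + (d * u.im) * (d * u.im) : ℚ) : ℝ) := by
        exact_mod_cast h11
      rw [sq, sq]; exact this
    have h14 : (d:ℝ) * ‖P.eval z0‖ ≤ Y.X.e * ‖P.derivative.eval z0‖ :=
      le_of_sq_le_sq h13 (by positivity)
    have h15 : ‖z0 - x‖ * ‖P.derivative.eval z0‖ ≤ Y.X.e * ‖P.derivative.eval z0‖ := by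
      refine hx1.trans (le_trans ?_ h14)
      have : (P.natDegree : ℝ) ≤ d := by exact_mod_cast hdeg
      gcongr
    rw [norm_sub_rev]
    exact le_of_mul_le_mul_right h15 hD0
  have hxd : x ^ d = x + 1 := by
    rw [hPe] at hx0
    linear_combination hx0
  have hz0sq : ‖z0‖ ^ 2 = (Y.X.nsq : ℝ) := Y.X.norm_cen_sq
  have hrl : (Y.rl:ℝ) ≤ ‖x‖ := by
    have h16 : (Y.rl:ℝ) + Y.X.e ≤ ‖z0‖ := by
      apply le_of_sq_le_sq _ (norm_nonneg _)
      rw [hz0sq, sq]; exact h7'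
    have := norm_sub_norm_le z0 x
    rw [norm_sub_rev] at this
    linarith
  have hxb : ‖x‖ < b := by
    have h16 : ‖z0‖ < (Y.bl:ℝ) - Y.X.e := by
      apply lt_of_pow_lt_pow_left₀ 2 h8'
      rw [hz0sq, sq]; exact h9'
    have := norm_sub_norm_le x z0
    linarith
  refine ⟨x, hxd, ?_⟩
  by_cases hkL : k < 1 + L.length
  · obtain ⟨r, hr⟩ := rowsOk_sound L hL hk hkL
    intro M
    exact rowOk_sound hr (by linarith) hbl hbu hmem (by linarith) hrl hxb.le hb hk M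
  · push Not at hkL
    have hkne : k ≠ 0 := by omega
    have hR : (Y.rl:ℝ) ^ (L.length + 1) ≤ ‖x ^ k‖ := by
      rw [norm_pow]
      calc (Y.rl:ℝ) ^ (L.length + 1) ≤ (Y.rl:ℝ) ^ k := by
            apply pow_le_pow_right₀ h6'.le; omega
        _ ≤ ‖x‖ ^ k := by gcongr
    have hR1 : 1 < (Y.rl:ℝ) ^ (L.length + 1) := one_lt_pow₀ h6' (by omega)
    apply escape_large
    · linarith
    · have h17 : ((Y.rl:ℝ) ^ (L.length + 1)) ^ 2 - (Y.rl:ℝ) ^ (L.length + 1)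
          ≤ ‖x ^ k‖ ^ 2 - ‖x ^ k‖ := mono_aux' (le_refl 2) hR1 hR
      linarith
    · intro h
      have : ‖x ^ k‖ = b ^ k := by
        rw [h, Complex.norm_real, Real.norm_eq_abs, abs_of_pos (by positivity)]
      rw [norm_pow] at this
      have h18 : ‖x‖ ^ k < b ^ k := pow_lt_pow_left₀ hxb (norm_nonneg _) hkne
      linarith

end Q2.BP
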