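import Mathlib

/-!
# Beta-expansions of one: orbits, conjugate orbits, escape criteria
-/

namespace Q2.BP

open Polynomial

/-- The beta-transformation `x ↦ βx - ⌊βx⌋`. -/
noncomputable def T (β x : ℝ) : ℝ := β * x - ⌊β * x⌋

/-- `β` is a Parry number: the orbit `{T_β^n(1) : n ≥ 1}` is finite. -/
def IsParry (β : ℝ) : Prop := {y : ℝ | ∃ n : ℕ, 1 ≤ n ∧ y = (T β)^[n] 1}.Finite

/-- the orbit of one -/
noncomputable def tt (β : ℝ) : ℕ → ℝ
  | 0 => 1
  | n + 1 => T β (tt β n)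

lemma tt_eq (β : ℝ) (n : ℕ) : tt β n = (T β)^[n] 1 := by
  induction n with
  | zero => rfl
  | succ n ih => rw [Function.iterate_succ_apply', ← ih]; rfl

/-- the digits -/
noncomputable def dg (β : ℝ) (n : ℕ) : ℤ := ⌊β * tt β n⌋

lemma tt_succ (β : ℝ) (n : ℕ) : tt β (n + 1) = β * tt β n - dg β n := rfl

lemma T_nonneg (β x : ℝ) : 0 ≤ T β x := by
  unfold T; linarith [Int.floor_le (β * x)]

lemma T_lt_one (β x : ℝ) : T β x < 1 := by
  unfold T; linarith [Int.lt_floor_add_one (β * x)]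

lemma tt_nonneg (β : ℝ) (n : ℕ) : 0 ≤ tt β n := by
  cases n with
  | zero => simp [tt]
  | succ n => exact T_nonneg _ _

lemma tt_le_one (β : ℝ) (n : ℕ) : tt β n ≤ 1 := by
  cases n with
  | zero => simp [tt]
  | succ n => exact (T_lt_one _ _).le

lemma tt_lt_one (β : ℝ) {n : ℕ} (hn : 1 ≤ n) : tt β n < 1 := by
  cases n with
  | zero => omega
  | succ n => exact T_lt_one _ _

/-- the conjugate orbit -/
noncomputable def ww (β : ℝ) (γ : ℂ) : ℕ → ℂ
  | 0 => 1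
  | n + 1 => γ * ww β γ n - (dg β n : ℂ)

lemma ww_succ (β : ℝ) (γ : ℂ) (n : ℕ) : ww β γ (n + 1) = γ * ww β γ n - (dg β n : ℂ) := rfl

/-- the orbit polynomials -/
noncomputable def PP (β : ℝ) : ℕ → ℚ[X]
  | 0 => 1
  | n + 1 => X * PP β n - C (dg β n : ℚ)

lemma aeval_PP_real (β : ℝ) (n : ℕ) : aeval β (PP β n) = tt β n := by
  induction n with
  | zero => simp [PP, tt]
  | succ n ih =>
    rw [PP, tt_succ, map_sub, map_mul, ih, aeval_X, aeval_C]
    simp

lemma aeval_PP_complex (β : ℝ) (γ : ℂ) (n : ℕ) : aeval γ (PP β n) = ww β γ n := by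
  induction n with
  | zero => simp [PP, ww]
  | succ n ih =>
    rw [PP, ww_succ, map_sub, map_mul, ih, aeval_X, aeval_C]
    simp

/-- The orbit of a Parry number is eventually periodic, hence so are the conjugate orbits. -/
theorem bounded_of_parry {β : ℝ} (hP : IsParry β) {p : ℚ[X]} (hp : Irreducible p) {b : ℝ}
    {k : ℕ} (hbk : β = b ^ k) (hb : aeval b p = 0) {x : ℂ} (hx : aeval x p = 0) :
    ∃ M : ℝ, ∀ n, ‖ww β (x ^ k) n‖ ≤ M := by
  classical
  have hmem : ∀ n : ℕ, tt β (n + 1) ∈ {y : ℝ | ∃ n : ℕ, 1 ≤ n ∧ y = (T β)^[n] 1} :=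
    fun n => ⟨n + 1, by omega, tt_eq β (n + 1)⟩
  obtain ⟨n, n', hlt, heq⟩ := Set.Finite.exists_lt_map_eq_of_forall_mem
    (f := fun n : ℕ => tt β (n + 1)) hmem hP
  set N := n + 1 with hN
  set N' := n' + 1 with hN'
  have hltN : N < N' := by omega
  -- the conjugate orbit takes the same value
  have hw : ww β (x ^ k) N = ww β (x ^ k) N' := by
    have h1 : aeval b ((PP β N - PP β N').comp (X ^ k)) = 0 := by
      rw [aeval_comp]
      simp only [map_pow, aeval_X, map_sub]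
      rw [← hbk, aeval_PP_real, aeval_PP_real, heq, sub_self]
    have h2 : p ∣ (PP β N - PP β N').comp (X ^ k) := by
      have hm : minpoly ℚ b ∣ p := minpoly.dvd ℚ b hb
      have hint : IsIntegral ℚ b := by
        refine IsAlgebraic.isIntegral ⟨p, hp.ne_zero, hb⟩
      have h3 : Associated (minpoly ℚ b) p :=
        (minpoly.irreducible hint).associated_of_dvd hp hm
      exact h3.symm.dvd.trans (minpoly.dvd ℚ b h1)
    obtain ⟨q, hq⟩ := h2
    have h4 : aeval x ((PP β N - PP β N').comp (X ^ k)) = 0 := by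
      rw [hq, map_mul, hx, zero_mul]
    rw [aeval_comp] at h4
    simp only [map_pow, aeval_X, map_sub, aeval_PP_complex] at h4
    exact sub_eq_zero.mp h4
  have hper : ∀ j, tt β (N + j) = tt β (N' + j) ∧ ww β (x ^ k) (N + j) = ww β (x ^ k) (N' + j) := by
    intro j
    induction j with
    | zero => exact ⟨heq, hw⟩
    | succ j ih =>
      have hd : dg β (N + j) = dg β (N' + j) := by unfold dg; rw [ih.1]
      refine ⟨?_, ?_⟩
      · rw [← add_assoc, ← add_assoc, tt_succ, tt_succ, ih.1, hd]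
      · rw [← add_assoc, ← add_assoc, ww_succ, ww_succ, ih.2, hd]
  have hred : ∀ m, ∃ i, i < N' ∧ ww β (x ^ k) m = ww β (x ^ k) i := by
    intro m
    induction m using Nat.strong_induction_on with
    | _ m ih =>
      by_cases h : m < N'
      · exact ⟨m, h, rfl⟩
      · obtain ⟨j, hj⟩ := Nat.exists_eq_add_of_le (not_lt.mp h)
        obtain ⟨i, hi, hi'⟩ := ih (N + j) (by omega)
        exact ⟨i, hi, by rw [hj, ← (hper j).2, hi']⟩
  refine ⟨∑ i ∈ Finset.range N', ‖ww β (x ^ k) i‖, fun m => ?_⟩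
  obtain ⟨i, hi, hi'⟩ := hred m
  rw [hi']
  exact Finset.single_le_sum (f := fun i => ‖ww β (x ^ k) i‖) (fun _ _ => norm_nonneg _)
    (Finset.mem_range.mpr hi)

/-- A real sequence which grows at least exponentially is unbounded. -/
lemma unbounded_of_growth {u : ℕ → ℝ} {R : ℝ} (hR : 1 < R) (hu0 : 0 < u 0)
    (hu : ∀ n, R * u n ≤ u (n + 1)) (M : ℝ) : ∃ n, M < u n := by
  have h : ∀ n, R ^ n * u 0 ≤ u n := by
    intro n
    induction n with
    | zero => simp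
    | succ n ih =>
      calc R ^ (n + 1) * u 0 = R * (R ^ n * u 0) := by ring
        _ ≤ R * u n := by gcongr
        _ ≤ u (n + 1) := hu n
  obtain ⟨n, hn⟩ := pow_unbounded_of_one_lt (M / u 0) hR
  refine ⟨n, lt_of_lt_of_le ?_ (h n)⟩
  rwa [div_lt_iff₀ hu0] at hn

/-- Escape criterion with a linear potential. -/
theorem escape {β : ℝ} {γ : ℂ} (hR : 1 < ‖γ‖) {a c : ℝ} (ha : 0 ≤ a) (hc : 0 ≤ c)
    (hpot : ∀ t : ℝ, 0 ≤ t → t ≤ 1 → a * T β t + c ≤ ‖γ‖ * (a * t + c) - (⌊β * t⌋ : ℝ))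
    (hfl : ∀ t : ℝ, 0 ≤ t → (0:ℤ) ≤ ⌊β * t⌋)
    {m : ℕ} (hm : a * tt β m + c < ‖ww β γ m‖) (M : ℝ) : ∃ n, M < ‖ww β γ n‖ := by
  set u : ℕ → ℝ := fun j => ‖ww β γ (m + j)‖ - (a * tt β (m + j) + c) with hu
  have h1 : ∀ j, ‖γ‖ * u j ≤ u (j + 1) := by
    intro j
    have hp := hpot (tt β (m + j)) (tt_nonneg _ _) (tt_le_one _ _)
    have hdn : (0:ℝ) ≤ (dg β (m + j) : ℝ) := by
      exact_mod_cast hfl _ (tt_nonneg β (m + j))
    have h2 : ‖γ‖ * ‖ww β γ (m + j)‖ - (dg β (m + j) : ℝ) ≤ ‖ww β γ (m + (j + 1))‖ := by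
      rw [← add_assoc, ww_succ]
      have h3 := norm_sub_norm_le (γ * ww β γ (m + j)) (dg β (m + j) : ℂ)
      rw [norm_mul] at h3
      have h4 : ‖(dg β (m + j) : ℂ)‖ = (dg β (m + j) : ℝ) := by
        rw [Complex.norm_intCast]; exact abs_of_nonneg hdn
      rw [h4] at h3
      exact h3
    have h5 : tt β (m + (j + 1)) = T β (tt β (m + j)) := rfl
    simp only [hu]
    rw [h5]
    have h6 : (dg β (m + j) : ℝ) = (⌊β * tt β (m + j)⌋ : ℝ) := rfl
    rw [h6] at h2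
    nlinarith [h2, hp]
  have h0 : 0 < u 0 := by simp only [hu, add_zero]; linarith
  obtain ⟨n, hn⟩ := unbounded_of_growth hR h0 h1 M
  refine ⟨m + n, lt_of_lt_of_le hn ?_⟩
  simp only [hu]
  have : 0 ≤ a * tt β (m + n) := mul_nonneg ha (tt_nonneg _ _)
  linarith

/-- auxiliary sequence -/
noncomputable def EE (β : ℝ) (γ : ℂ) : ℕ → ℂ
  | 0 => 0
  | n + 1 => γ * EE β γ n + (tt β n : ℂ)

lemma ww_sub_tt (β : ℝ) (γ : ℂ) (n : ℕ) :
    ww β γ n - (tt β n : ℂ) = (γ - (β : ℂ)) * EE β γ n := by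
  induction n with
  | zero => simp [ww, tt, EE]
  | succ n ih =>
    have h : (tt β (n + 1) : ℂ) = (β : ℂ) * (tt β n : ℂ) - (dg β n : ℂ) := by
      rw [tt_succ]; push_cast; ring
    rw [ww_succ, h, EE]
    linear_combination γ * ih

/-- Conjugates of modulus larger than the golden ratio escape (Solomyak's argument). -/
theorem escape_large {β : ℝ} {γ : ℂ} (hR : 1 < ‖γ‖) (hR2 : ‖γ‖ + 1 < ‖γ‖ ^ 2)
    (hne : γ ≠ (β : ℂ)) (M : ℝ) : ∃ n, M < ‖ww β γ n‖ := by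
  set R := ‖γ‖ with hRdef
  set H : ℕ → ℂ := fun n => 2 * (γ - 1) * EE β γ n + 1 with hH
  have hHs : ∀ n, H (n + 1) = γ * H n + (γ - 1) * (2 * (tt β n : ℂ) - 1) := by
    intro n
    simp only [hH, EE]; ring
  have hg1 : 0 < ‖γ - 1‖ := by
    rw [norm_pos_iff, sub_ne_zero]
    rintro rfl
    simp at hRdef
    linarith
  have hstep : ∀ n, R * ‖H n‖ - ‖γ - 1‖ ≤ ‖H (n + 1)‖ := by
    intro n
    rw [hHs]
    have h1 := norm_sub_norm_le (γ * H n) (-((γ - 1) * (2 * (tt β n : ℂ) - 1)))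
    rw [sub_neg_eq_add, norm_neg, norm_mul, norm_mul] at h1
    have h2 : ‖(2 * (tt β n : ℂ) - 1)‖ ≤ 1 := by
      have : (2 * (tt β n : ℂ) - 1) = ((2 * tt β n - 1 : ℝ) : ℂ) := by push_cast; ring
      rw [this, Complex.norm_real, Real.norm_eq_abs, abs_le]
      constructor <;> linarith [tt_nonneg β n, tt_le_one β n]
    have h3 : ‖γ - 1‖ * ‖(2 * (tt β n : ℂ) - 1)‖ ≤ ‖γ - 1‖ := by
      nlinarith
    linarith
  have hH1 : H 1 = 2 * γ - 1 := by simp [hH, EE, tt]; ring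
  have hbase : ‖γ - 1‖ < (R - 1) * ‖H 1‖ := by
    rw [hH1]
    have hsq1 : ‖γ - 1‖ ^ 2 = R ^ 2 - 2 * γ.re + 1 := by
      rw [← Complex.normSq_eq_norm_sq, hRdef, ← Complex.normSq_eq_norm_sq]
      simp [Complex.normSq_apply]; ring
    have hsq2 : ‖2 * γ - 1‖ ^ 2 = 4 * R ^ 2 - 4 * γ.re + 1 := by
      rw [← Complex.normSq_eq_norm_sq, hRdef, ← Complex.normSq_eq_norm_sq]
      simp [Complex.normSq_apply]; ring
    have hre1 : γ.re ≤ R := (Complex.re_le_norm γ)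
    have hre2 : -R ≤ γ.re := by
      have := Complex.abs_re_le_norm γ
      rw [abs_le] at this
      exact this.1
    have key : ‖γ - 1‖ ^ 2 < ((R - 1) * ‖2 * γ - 1‖) ^ 2 := by
      rw [mul_pow, hsq1, hsq2]
      have hA : 0 < (R - 1) ^ 2 * (2 * R - 1) ^ 2 - (R - 1) ^ 2 := by
        have : 0 < (R - 1) ^ 2 := by have := sub_pos.mpr hR; positivity
        nlinarith
      have hB : 0 < (R - 1) ^ 2 * (2 * R + 1) ^ 2 - (R + 1) ^ 2 := by
        have h1 : R + 1 < (R - 1) * (2 * R + 1) := by nlinarith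
        have h2 : 0 < R + 1 := by linarith
        nlinarith
      -- 2R * (goal) = (R + u) * A + (R - u) * B
      have hid : 2 * R * ((R - 1) ^ 2 * (4 * R ^ 2 - 4 * γ.re + 1) - (R ^ 2 - 2 * γ.re + 1))
          = (R + γ.re) * ((R - 1) ^ 2 * (2 * R - 1) ^ 2 - (R - 1) ^ 2)
            + (R - γ.re) * ((R - 1) ^ 2 * (2 * R + 1) ^ 2 - (R + 1) ^ 2) := by ring
      have h3 : 0 ≤ R + γ.re := by linarith
      have h4 : 0 ≤ R - γ.re := by linarith
      have h5 : 0 < (R + γ.re) * ((R - 1) ^ 2 * (2 * R - 1) ^ 2 - (R - 1) ^ 2)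
            + (R - γ.re) * ((R - 1) ^ 2 * (2 * R + 1) ^ 2 - (R + 1) ^ 2) := by
        rcases h3.lt_or_eq with h | h
        · have := mul_pos h hA
          have := mul_nonneg h4 hB.le
          linarith
        · have h6 : 0 < R - γ.re := by linarith
          have := mul_pos h6 hB
          have := mul_nonneg h3 hA.le
          linarith
      rw [← hid] at h5
      have h6 : 0 < 2 * R := by linarith
      have := (mul_pos_iff_of_pos_left h6).mp h5
      linarith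
    have hpos : 0 ≤ (R - 1) * ‖2 * γ - 1‖ := mul_nonneg (by linarith) (norm_nonneg _)
    exact lt_of_pow_lt_pow_left₀ 2 hpos key
  -- growth of H
  set u : ℕ → ℝ := fun j => (R - 1) * ‖H (1 + j)‖ - ‖γ - 1‖ with hu
  have h0 : 0 < u 0 := by simp only [hu, add_zero]; linarith
  have h1 : ∀ j, R * u j ≤ u (j + 1) := by
    intro j
    simp only [hu]
    have := hstep (1 + j)
    have h2 : (1 + (j + 1)) = (1 + j) + 1 := by ring
    rw [h2]
    have h3 : 0 < R - 1 := by linarith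
    nlinarith
  have hne' : 0 < ‖γ - (β : ℂ)‖ := by rw [norm_pos_iff, sub_ne_zero]; exact hne
  -- choose the bound
  obtain ⟨n, hn⟩ := unbounded_of_growth hR h0 h1
    ((R - 1) * (2 * ‖γ - 1‖ * ((|M| + 1) / ‖γ - (β : ℂ)‖) + 1))
  simp only [hu] at hn
  have h2 : 2 * ‖γ - 1‖ * ((|M| + 1) / ‖γ - (β : ℂ)‖) + 1 < ‖H (1 + n)‖ := by
    have h3 : 0 < R - 1 := by linarith
    have h4 : (R - 1) * (2 * ‖γ - 1‖ * ((|M| + 1) / ‖γ - (β : ℂ)‖) + 1)
        < (R - 1) * ‖H (1 + n)‖ := by linarith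
    exact lt_of_mul_lt_mul_left h4 h3.le
  have h5 : ‖H (1 + n)‖ ≤ 2 * ‖γ - 1‖ * ‖EE β γ (1 + n)‖ + 1 := by
    simp only [hH]
    refine (norm_add_le _ _).trans ?_
    rw [norm_mul, norm_mul]
    simp
  have h6 : (|M| + 1) / ‖γ - (β : ℂ)‖ < ‖EE β γ (1 + n)‖ := by
    have h7 : 2 * ‖γ - 1‖ * ((|M| + 1) / ‖γ - (β : ℂ)‖) < 2 * ‖γ - 1‖ * ‖EE β γ (1 + n)‖ := by
      linarith
    exact lt_of_mul_lt_mul_left h7 (by positivity)
  rw [div_lt_iff₀ hne'] at h6
  refine ⟨1 + n, ?_⟩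
  have h8 := ww_sub_tt β γ (1 + n)
  have h9 : ww β γ (1 + n) = (γ - (β : ℂ)) * EE β γ (1 + n) + (tt β (1 + n) : ℂ) := by
    linear_combination h8
  have h10 : ‖(γ - (β : ℂ)) * EE β γ (1 + n)‖ - ‖(tt β (1 + n) : ℂ)‖ ≤ ‖ww β γ (1 + n)‖ := by
    rw [h9]
    have := norm_sub_norm_le ((γ - (β : ℂ)) * EE β γ (1 + n)) (-(tt β (1 + n) : ℂ))
    rw [norm_neg, sub_neg_eq_add] at this
    exact this
  rw [norm_mul, Complex.norm_real, Real.norm_eq_abs, abs_of_nonneg (tt_nonneg _ _)] at h10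
  have h11 := tt_le_one β (1 + n)
  have h12 := le_abs_self M
  nlinarith

end Q2.BP
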