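import Pool.Agent.Q2.BP.Core

/-!
# The linear potential
-/

namespace Q2.BP

lemma floor_nonneg_of {β : ℝ} (hβ : 0 ≤ β) : ∀ t : ℝ, 0 ≤ t → (0:ℤ) ≤ ⌊β * t⌋ :=
  fun _ ht => Int.floor_nonneg.mpr (mul_nonneg hβ ht)

/-- linear potential for `β < 2` -/
lemma pot_linear {β R S a c : ℝ} (hβ : 1 < β) (hβ2 : β < 2) (hS : β - R ≤ S) (hS0 : 0 ≤ S)
    (ha : 0 ≤ a) (h1 : a * S ≤ β * (c * (R - 1))) (h2 : 1 - a + a * S ≤ c * (R - 1)) :
    ∀ t : ℝ, 0 ≤ t → t ≤ 1 → a * T β t + c ≤ R * (a * t + c) - (⌊β * t⌋ : ℝ) := by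
  intro t ht0 ht1
  unfold T
  have haS : a * (β - R) ≤ a * S := mul_le_mul_of_nonneg_left hS ha
  have hc : 0 ≤ c * (R - 1) := by
    have h3 : 0 ≤ β * (c * (R - 1)) := le_trans (mul_nonneg ha hS0) h1
    exact nonneg_of_mul_nonneg_right h3 (by linarith)
  have haS0 : 0 ≤ a * S := mul_nonneg ha hS0
  by_cases hlt : β * t < 1
  · have hf : ⌊β * t⌋ = 0 := by
      rw [Int.floor_eq_iff]; push_cast
      constructor
      · have := mul_nonneg (by linarith : (0:ℝ) ≤ β) ht0; linarith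
      · linarith
    rw [hf]; push_cast
    -- a (β - R) t ≤ c (R - 1)
    have h3 : β * (a * S * t) ≤ β * (c * (R - 1)) := by
      have : β * (a * S * t) = a * S * (β * t) := by ring
      rw [this]
      refine le_trans ?_ h1
      nlinarith
    have h4 : a * S * t ≤ c * (R - 1) := le_of_mul_le_mul_left h3 (by linarith)
    have h5 : a * (β - R) * t ≤ a * S * t := mul_le_mul_of_nonneg_right haS ht0
    nlinarith
  · push Not at hlt
    have hf : ⌊β * t⌋ = 1 := by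
      rw [Int.floor_eq_iff]; push_cast
      constructor
      · exact hlt
      · nlinarith
    rw [hf]; push_cast
    have h5 : a * (β - R) * t ≤ a * S * t := mul_le_mul_of_nonneg_right haS ht0
    have h6 : a * S * t ≤ a * S := by nlinarith
    nlinarith

/-- constant potential -/
lemma pot_const {β R c : ℝ} {D : ℤ} (hβ : 0 ≤ β) (hβD : β < D + 1) (h : (D : ℝ) ≤ c * (R - 1)) :
    ∀ t : ℝ, 0 ≤ t → t ≤ 1 → 0 * T β t + c ≤ R * (0 * t + c) - (⌊β * t⌋ : ℝ) := by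
  intro t ht0 ht1
  have h1 : ⌊β * t⌋ ≤ D := by
    have : ⌊β * t⌋ < D + 1 := by
      rw [Int.floor_lt]; push_cast
      nlinarith
    omega
  have h2 : (⌊β * t⌋ : ℝ) ≤ D := by exact_mod_cast h1
  nlinarith

/-- The criterion at the first step, for `β < 2`. -/
theorem criterion {β : ℝ} {γ : ℂ} (hR : 1 < ‖γ‖) (hRβ : ‖γ‖ ≤ β) (hβ2 : β < 2)
    {ε : ℝ} (hε : (β - ‖γ‖) / β ≤ ε) (hε1 : 0 < 1 - ε * (β - 1))
    (hmain : (β - 1) + ε / (‖γ‖ - 1) < ‖γ - 1‖ * (1 - ε * (β - 1))) (M : ℝ) :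
    ∃ n, M < ‖ww β γ n‖ := by
  have hβ : 1 < β := lt_of_lt_of_le hR hRβ
  have hβ0 : 0 < β := by linarith
  set R := ‖γ‖ with hRdef
  set a : ℝ := 1 / (1 - ε * (β - 1)) with ha
  set c : ℝ := a * ε / (R - 1) with hc
  have hR1 : 0 < R - 1 := by linarith
  have hε0 : 0 ≤ ε := le_trans (div_nonneg (by linarith) hβ0.le) hε
  have ha0 : 0 < a := by rw [ha]; positivity
  have hc0 : 0 ≤ c := by rw [hc]; positivity
  have hcR : c * (R - 1) = a * ε := by rw [hc]; field_simp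
  have haa : a * (1 - ε * (β - 1)) = 1 := by rw [ha]; field_simp
  have hS : β - R ≤ ε * β := by
    rw [div_le_iff₀ hβ0] at hε; exact hε
  refine escape hR ha0.le hc0 (pot_linear hβ hβ2 hS (by positivity) ha0.le ?_ ?_)
    (floor_nonneg_of hβ0.le) (m := 1) ?_ M
  · rw [hcR]; nlinarith
  · rw [hcR]; nlinarith
  · have hd0 : dg β 0 = 1 := by
      unfold dg
      rw [Int.floor_eq_iff]; simp [tt]
      constructor <;> linarith
    have ht1 : tt β 1 = β - 1 := by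
      have := tt_succ β 0
      rw [this, hd0]; simp [tt]
    have hw1 : ww β γ 1 = γ - 1 := by
      have := ww_succ β γ 0
      rw [this, hd0]; simp [ww]
    rw [ht1, hw1]
    have h1 : a * ((β - 1) + ε / (R - 1)) < a * (‖γ - 1‖ * (1 - ε * (β - 1))) :=
      mul_lt_mul_of_pos_left hmain ha0
    have h2 : a * (‖γ - 1‖ * (1 - ε * (β - 1))) = ‖γ - 1‖ := by
      linear_combination ‖γ - 1‖ * haa
    rw [h2] at h1
    have h3 : a * ((β - 1) + ε / (R - 1)) = a * (β - 1) + c := by rw [hc]; ring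
    linarith

end Q2.BP
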