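import Pool.Agent.Q2.BP.Check

/-!
# The degrees 4 to 12
-/

namespace Q2.BP

/-- enclosures for `d = 4` -/
def Y4 : Dat := ⟨(244148816921 / 200000000000), (610372042303 / 500000000000), ⟨(-248126062803 / 1000000000000), (64623878811 / 62500000000), (1 / 10000000000)⟩, (1063336937821 / 1000000000000)⟩

/-- data for `d = 4` -/
def L4 : List Row := [
  ⟨(0), (15789 / 1000), 1, [1, 0, 0, 0, 0, 0, 0, 0, 1, 0, 0, 0, 0, 0, 0, 0, 0, 0, 0, 0, 0, 1, 0, 0, 0, 0, 0, 0, 0, 0, 1, 0, 0, 0, 0]⟩,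
  ⟨(0), (1913 / 250), 1, [1, 0, 1, 0, 0, 0, 0, 0, 0, 1]⟩,
  ⟨(0), (618 / 125), 1, [1, 1, 0, 1, 1, 0, 0]⟩,
  ⟨(0), (7183 / 1000), 2, [2, 0, 1, 0, 0, 0, 2]⟩,
  ⟨(0), (1113 / 200), 2, [2, 1, 2]⟩,
  ⟨(0), (3367 / 500), 3, [3, 1, 0]⟩,
  ⟨(0), (931 / 125), 4, [4, 0, 0, 2]⟩]

theorem D4 : datOk Y4 4 8 = true := by decide +kernel

theorem R4 : rowsOk Y4 1 L4 = true := by decide +kernel

/-- enclosures for `d = 5` -/
def Y5 : Dat := ⟨(116730397 / 100000000), (58365199 / 50000000), ⟨(4530811 / 25000000), (10839541 / 10000000), (1 / 1000000)⟩, (109899831 / 100000000)⟩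

/-- data for `d = 5` -/
def L5 : List Row := [
  ⟨(1011 / 1000), (599 / 1000), 1, [1]⟩,
  ⟨(261 / 250), (573 / 1000), 1, [1]⟩,
  ⟨(111 / 100), (563 / 1000), 1, [1]⟩,
  ⟨(613 / 500), (23 / 40), 1, [1, 1]⟩,
  ⟨(0), (829 / 250), 2, [2, 0, 0]⟩]

theorem D5 : datOk Y5 5 6 = true := by decide +kernel

theorem R5 : rowsOk Y5 1 L5 = true := by decide +kernel

/-- enclosures for `d = 6` -/
def Y6 : Dat := ⟨(113472413 / 100000000), (56736207 / 50000000), ⟨(11276379 / 25000000), (100236457 / 100000000), (1 / 1000000)⟩, (109917291 / 100000000)⟩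

/-- data for `d = 6` -/
def L6 : List Row := [
  ⟨(503 / 500), (8 / 25), 1, [1]⟩,
  ⟨(51 / 50), (38 / 125), 1, [1]⟩,
  ⟨(209 / 200), (73 / 250), 1, [1]⟩,
  ⟨(1087 / 1000), (57 / 200), 1, [1]⟩,
  ⟨(23 / 20), (141 / 500), 1, [1, 1]⟩]

theorem D6 : datOk Y6 6 6 = true := by decide +kernel

theorem R6 : rowsOk Y6 1 L6 = true := by decide +kernel

/-- enclosures for `d = 7` -/
def Y7 : Dat := ⟨(434678 / 390625), (111277569 / 100000000), ⟨(15427337 / 25000000), (18017299 / 20000000), (1 / 1000000)⟩, (10919513 / 10000000)⟩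

/-- data for `d = 7` -/
def L7 : List Row := [
  ⟨(251 / 250), (103 / 500), 1, [1]⟩,
  ⟨(101 / 100), (197 / 1000), 1, [1]⟩,
  ⟨(1023 / 1000), (189 / 1000), 1, [1]⟩,
  ⟨(521 / 500), (91 / 500), 1, [1]⟩,
  ⟨(1069 / 1000), (177 / 1000), 1, [1]⟩]

theorem D7 : datOk Y7 7 6 = true := by decide +kernel

theorem R7 : rowsOk Y7 1 L7 = true := by decide +kernel

/-- enclosures for `d = 8` -/
def Y8 : Dat := ⟨(21939631 / 20000000), (27424539 / 25000000), ⟨(9040457 / 12500000), (315278 / 390625), (1 / 1000000)⟩, (108374169 / 100000000)⟩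

/-- data for `d = 8` -/
def L8 : List Row := [
  ⟨(1003 / 1000), (147 / 1000), 1, [1]⟩,
  ⟨(503 / 500), (141 / 1000), 1, [1]⟩,
  ⟨(1013 / 1000), (27 / 200), 1, [1]⟩,
  ⟨(1023 / 1000), (13 / 100), 1, [1]⟩,
  ⟨(1037 / 1000), (63 / 500), 1, [1]⟩]

theorem D8 : datOk Y8 8 6 = true := by decide +kernel

theorem R8 : rowsOk Y8 1 L8 = true := by decide +kernel

/-- enclosures for `d = 9` -/
def Y9 : Dat := ⟨(6781689 / 6250000), (4340281 / 4000000), ⟨(127049 / 160000), (18157939 / 25000000), (1 / 1000000)⟩, (107613113 / 100000000)⟩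

/-- data for `d = 9` -/
def L9 : List Row := [
  ⟨(501 / 500), (111 / 1000), 1, [1]⟩,
  ⟨(251 / 250), (107 / 1000), 1, [1]⟩,
  ⟨(126 / 125), (103 / 1000), 1, [1]⟩,
  ⟨(507 / 500), (99 / 1000), 1, [1]⟩,
  ⟨(511 / 500), (12 / 125), 1, [1]⟩,
  ⟨(1033 / 1000), (93 / 1000), 1, [1]⟩]

theorem D9 : datOk Y9 9 7 = true := by decide +kernel

theorem R9 : rowsOk Y9 1 L9 = true := by decide +kernel

/-- enclosures for `d = 10` -/
def Y10 : Dat := ⟨(53788303 / 50000000), (107576607 / 100000000), ⟨(16862933 / 20000000), (13157881 / 20000000), (1 / 1000000)⟩, (21388937 / 20000000)⟩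

/-- data for `d = 10` -/
def L10 : List Row := [
  ⟨(501 / 500), (87 / 1000), 1, [1]⟩,
  ⟨(1003 / 1000), (21 / 250), 1, [1]⟩,
  ⟨(503 / 500), (81 / 1000), 1, [1]⟩,
  ⟨(1009 / 1000), (79 / 1000), 1, [1]⟩,
  ⟨(507 / 500), (19 / 250), 1, [1]⟩,
  ⟨(1021 / 1000), (37 / 500), 1, [1]⟩,
  ⟨(1029 / 1000), (9 / 125), 1, [1]⟩]

theorem D10 : datOk Y10 10 8 = true := by decide +kernel

theorem R10 : rowsOk Y10 1 L10 = true := by decide +kernel

/-- enclosures for `d = 11` -/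
def Y11 : Dat := ⟨(53414859 / 50000000), (106829719 / 100000000), ⟨(87829859 / 100000000), (11999649 / 20000000), (1 / 1000000)⟩, (106366493 / 100000000)⟩

/-- data for `d = 11` -/
def L11 : List Row := [
  ⟨(501 / 500), (71 / 1000), 1, [1]⟩,
  ⟨(1003 / 1000), (17 / 250), 1, [1]⟩,
  ⟨(251 / 250), (33 / 500), 1, [1]⟩,
  ⟨(1007 / 1000), (8 / 125), 1, [1]⟩,
  ⟨(101 / 100), (31 / 500), 1, [1]⟩,
  ⟨(507 / 500), (61 / 1000), 1, [1]⟩,
  ⟨(1019 / 1000), (59 / 1000), 1, [1]⟩]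

theorem D11 : datOk Y11 11 8 = true := by decide +kernel

theorem R11 : rowsOk Y11 1 L11 = true := by decide +kernel

/-- enclosures for `d = 12` -/
def Y12 : Dat := ⟨(26554229 / 25000000), (106216917 / 100000000), ⟨(90416913 / 100000000), (6883737 / 12500000), (1 / 1000000)⟩, (13233403 / 12500000)⟩

/-- data for `d = 12` -/
def L12 : List Row := [
  ⟨(501 / 500), (59 / 1000), 1, [1]⟩,
  ⟨(501 / 500), (57 / 1000), 1, [1]⟩,
  ⟨(1003 / 1000), (11 / 200), 1, [1]⟩,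
  ⟨(201 / 200), (27 / 500), 1, [1]⟩,
  ⟨(1007 / 1000), (13 / 250), 1, [1]⟩,
  ⟨(101 / 100), (51 / 1000), 1, [1]⟩,
  ⟨(507 / 500), (1 / 20), 1, [1]⟩,
  ⟨(509 / 500), (6 / 125), 1, [1]⟩]

theorem D12 : datOk Y12 12 9 = true := by decide +kernel

theorem R12 : rowsOk Y12 1 L12 = true := by decide +kernel

end Q2.BP
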