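import Pool.Agent.Q2.BP.Root
import Pool.Agent.Q2.BP.Crit

/-!
# The case `d ≥ 13`
-/

namespace Q2.BP

open Real

lemma add_pow_quadratic {a : ℝ} (ha : 0 ≤ a) (n : ℕ) :
    1 + n * a + n * (n - 1) / 2 * a ^ 2 ≤ (1 + a) ^ n := by
  induction n with
  | zero => simp
  | succ n ih =>
    rw [pow_succ]
    push_cast
    have h1 : (1 + n * a + n * (n - 1) / 2 * a ^ 2) * (1 + a) ≤ (1 + a) ^ n * (1 + a) := by
      gcongr
    refine le_trans ?_ h1
    have h2 : (0:ℝ) ≤ n * (n - 1) := by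
      rcases Nat.eq_zero_or_pos n with rfl | hn
      · simp
      · have : (1:ℝ) ≤ n := by exact_mod_cast hn
        have h3 : (0:ℝ) ≤ (n:ℝ) - 1 := by linarith
        positivity
    have h3 : 0 ≤ (n : ℝ) * (n - 1) * a ^ 3 := by positivity
    nlinarith

lemma mono_aux {d : ℕ} (hd : 2 ≤ d) {u v : ℝ} (hu : 1 < u) (huv : u ≤ v) :
    u ^ d - u ≤ v ^ d - v := by
  obtain ⟨e, rfl⟩ : ∃ e, d = e + 1 := ⟨d - 1, by omega⟩
  have h1 : 1 ≤ u ^ e := one_le_pow₀ hu.le
  have h2 : u ^ e ≤ v ^ e := by gcongr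
  rw [pow_succ, pow_succ]
  nlinarith

lemma b_upper {d : ℕ} (hd : 13 ≤ d) {b : ℝ} (hbd : b ^ d = b + 1) :
    b < 1 + 0.8 / d := by
  by_contra h
  push Not at h
  have hd' : (13 : ℝ) ≤ d := by exact_mod_cast hd
  have hd0 : (0:ℝ) < d := by linarith
  have h1 : (1 : ℝ) < 1 + 0.8 / d := by
    have : (0:ℝ) < 0.8 / d := by positivity
    linarith
  have h2 := mono_aux (by omega : 2 ≤ d) h1 h
  have h3 := add_pow_quadratic (a := 0.8 / d) (by positivity) d
  have h4 : (d:ℝ) * (0.8 / d) = 0.8 := by field_simp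
  have h5 : (d:ℝ) * (d - 1) / 2 * (0.8 / d) ^ 2 = 0.32 - 0.32 * (1 / d) := by
    field_simp; ring
  have h6 : (0.8:ℝ) / d = 0.8 * (1 / d) := by ring
  have h7 : (1:ℝ) / d ≤ 1 / 13 := by
    apply div_le_div_of_nonneg_left <;> linarith
  rw [h4, h5] at h3
  rw [h6] at h2 h3
  rw [hbd] at h2
  norm_num at h2 h3 h7
  linarith

theorem large {d : ℕ} (hd : 13 ≤ d) {b : ℝ} (hb : 1 < b) (hbd : b ^ d = b + 1) {k : ℕ}
    (hk : 1 ≤ k) : ∃ x : ℂ, x ^ d = x + 1 ∧ ∀ M : ℝ, ∃ n, M < ‖ww (b ^ k) (x ^ k) n‖ := by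
  obtain ⟨ρ, θ, hρ1, hθ1, hθ2, hx⟩ := exists_root (by omega : 5 ≤ d)
  set x : ℂ := (ρ : ℂ) * Complex.exp (θ * Complex.I) with hxdef
  refine ⟨x, hx, ?_⟩
  have hd' : (13 : ℝ) ≤ d := by exact_mod_cast hd
  have hd0 : (0:ℝ) < d := by linarith
  have hk' : (1 : ℝ) ≤ k := by exact_mod_cast hk
  have hπ := Real.pi_pos
  have hπ3 := Real.pi_gt_three
  have hπ4 : π < 3.1416 := Real.pi_lt_d4
  have hπ5 : 3.1415 < π := Real.pi_gt_d4
  have hθ0 : 0 < θ := by
    by_contra h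
    push Not at h
    have : (d:ℝ) * θ ≤ 0 := mul_nonpos_of_nonneg_of_nonpos hd0.le h
    linarith
  have hθ6 : θ ≤ π / 6 := by
    have : 12 * θ ≤ ((d:ℝ) - 1) * θ := mul_le_mul_of_nonneg_right (by linarith) hθ0.le
    linarith
  have hρ0 : 0 < ρ := by linarith
  -- the norm of x and of x + 1
  have hnx : ‖x‖ = ρ := by
    rw [hxdef, norm_mul, Complex.norm_exp_ofReal_mul_I, mul_one, Complex.norm_real,
      Real.norm_eq_abs, abs_of_pos hρ0]
  have hxre : x.re = ρ * cos θ := by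
    rw [hxdef, Complex.re_ofReal_mul, Complex.exp_ofReal_mul_I_re]
  have hxim : x.im = ρ * sin θ := by
    rw [hxdef, Complex.im_ofReal_mul, Complex.exp_ofReal_mul_I_im]
  have hsc := Real.sin_sq_add_cos_sq θ
  have hsq : (ρ ^ d) ^ 2 = 1 + 2 * ρ * cos θ + ρ ^ 2 := by
    have h1 : ‖x ^ d‖ ^ 2 = ‖x + 1‖ ^ 2 := by rw [hx]
    rw [norm_pow, hnx, ← Complex.normSq_eq_norm_sq (x + 1), Complex.normSq_apply] at h1
    simp only [Complex.add_re, Complex.add_im, Complex.one_re, Complex.one_im, hxre, hxim,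
      add_zero] at h1
    rw [h1]
    linear_combination ρ ^ 2 * hsc
  have hcos6 : √3 / 2 ≤ cos θ := by
    rw [← Real.cos_pi_div_six]
    exact Real.cos_le_cos_of_nonneg_of_le_pi hθ0.le (by linarith) hθ6
  have h3 : (1.73 : ℝ) < √3 := by
    rw [Real.lt_sqrt (by norm_num)]; norm_num
  have hcospos : 0 < cos θ := by linarith
  have hcos1 : cos θ < 1 := by
    have h1 : cos θ < cos 0 := Real.cos_lt_cos_of_nonneg_of_le_pi le_rfl (by linarith) hθ0
    rwa [Real.cos_zero] at h1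
  have hρdpos : 0 < ρ ^ d := by positivity
  have hρcos : cos θ ≤ ρ * cos θ := le_mul_of_one_le_left hcospos.le hρ1.le
  have hρcos2 : ρ * cos θ < ρ := mul_lt_of_lt_one_right hρ0 hcos1
  have hρ21 : 1 ≤ ρ ^ 2 := one_le_pow₀ hρ1.le
  have hρd193 : 1.93 < ρ ^ d := by
    have h1 : (1.93:ℝ) ^ 2 < (ρ ^ d) ^ 2 := by rw [hsq]; norm_num; linarith
    exact lt_of_pow_lt_pow_left₀ 2 hρdpos.le h1
  have hρd_lt : ρ ^ d < ρ + 1 := by
    have h1 : (ρ ^ d) ^ 2 < (ρ + 1) ^ 2 := by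
      rw [hsq]
      have : (ρ + 1) ^ 2 = ρ ^ 2 + 2 * ρ + 1 := by ring
      linarith
    exact lt_of_pow_lt_pow_left₀ 2 (by linarith) h1
  have hρb : ρ < b := by
    by_contra h
    push Not at h
    have := mono_aux (by omega : 2 ≤ d) hb h
    linarith
  have hb0 : 0 < b := by linarith
  have hb8 := b_upper hd hbd
  set y : ℝ := (k : ℝ) / d with hy
  have hdinv : (1:ℝ) / d ≤ 1 / 13 := by
    apply div_le_div_of_nonneg_left <;> linarith
  have hdinv0 : (0:ℝ) < 1 / d := by positivity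
  -- lower bound of ρ ^ d
  have hρd_lower : 2 - θ ^ 2 / 4 ≤ ρ ^ d := by
    have h1 : cos θ = 2 * cos (θ / 2) ^ 2 - 1 := by
      rw [← Real.cos_two_mul]; congr 1; ring
    have h2 : 1 - (θ / 2) ^ 2 / 2 ≤ cos (θ / 2) := Real.one_sub_sq_div_two_le_cos
    have h4 : 0 < cos (θ / 2) := Real.cos_pos_of_mem_Ioo ⟨by linarith, by linarith⟩
    have h5 : (2 * cos (θ / 2)) ^ 2 ≤ (ρ ^ d) ^ 2 := by
      rw [hsq]
      have h6 : (2 * cos (θ / 2)) ^ 2 = 2 + 2 * cos θ := by rw [h1]; ring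
      rw [h6]; linarith
    have h6 : 2 * cos (θ / 2) ≤ ρ ^ d := le_of_sq_le_sq h5 hρdpos.le
    linarith
  -- bound of θ
  have hθd : θ ^ 2 / 4 ≤ 0.9 * (1 / d) := by
    have h1 : θ * d ≤ 6.8070 := by
      have h8 : θ * d ≤ θ * (13 / 12 * (d - 1)) :=
        mul_le_mul_of_nonneg_left (by linarith) hθ0.le
      have h9 : θ * (13 / 12 * ((d:ℝ) - 1)) = 13 / 12 * (((d:ℝ) - 1) * θ) := by ring
      rw [h9] at h8
      norm_num
      norm_num at hπ4
      linarith
    have h2 : 0 ≤ θ * d := by positivity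
    have h4 : (θ * d) ^ 2 ≤ 46.34 :=
      (pow_le_pow_left₀ h2 h1 2).trans (by norm_num)
    have h5 : θ ^ 2 / 4 = (θ * d) ^ 2 / 4 * (1 / d) * (1 / d) := by field_simp
    rw [h5]
    have h6 : (θ * d) ^ 2 / 4 * (1 / d) ≤ 0.9 := by
      have h7 : (θ * d) ^ 2 / 4 * (1 / d) ≤ 11.585 * (1 / 13) := by
        apply mul_le_mul _ hdinv hdinv0.le (by norm_num)
        linarith
      refine h7.trans (by norm_num)
    exact mul_le_mul_of_nonneg_right h6 hdinv0.le
  -- s
  set s : ℝ := 1 - ρ / b with hs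
  have hs0 : 0 < s := by
    rw [hs]; rw [sub_pos, div_lt_one hb0]; exact hρb
  have hs1 : s < 1 := by
    rw [hs]; have : 0 < ρ / b := by positivity
    linarith
  have hρs : ρ = b * (1 - s) := by rw [hs]; field_simp; ring
  have hsd : s ≤ 0.9 * (1 / d) ^ 2 := by
    have h1 : 1 + (d:ℝ) * s ≤ (1 + s) ^ d := one_add_mul_le_pow (by linarith) d
    have h2 : (1 + s) ^ d * ρ ^ d ≤ b ^ d := by
      rw [← mul_pow]
      apply pow_le_pow_left₀ (by positivity)
      have h8 : (1 + s) * ρ = b - b * s ^ 2 := by rw [hρs]; ring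
      rw [h8]
      have := mul_nonneg hb0.le (sq_nonneg s)
      linarith
    rw [hbd] at h2
    have h4 : (1 + (d:ℝ) * s) * ρ ^ d ≤ b + 1 :=
      le_trans (mul_le_mul_of_nonneg_right h1 hρdpos.le) h2
    have h5 : (0.8:ℝ) / d = 0.8 * (1 / d) := by ring
    have h6 : (d:ℝ) * s * ρ ^ d ≤ 1.7 * (1 / d) := by
      have : (1 + (d:ℝ) * s) * ρ ^ d = ρ ^ d + (d:ℝ) * s * ρ ^ d := by ring
      rw [this] at h4
      rw [h5] at hb8
      linarith
    have h7 : (d:ℝ) * s * 1.93 ≤ (d:ℝ) * s * ρ ^ d :=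
      mul_le_mul_of_nonneg_left hρd193.le (by positivity)
    have h8 : (d:ℝ) * s ≤ 0.9 * (1 / d) := by linarith
    have h9 : (1/(d:ℝ)) * ((d:ℝ) * s) ≤ (1 / d) * (0.9 * (1 / d)) :=
      mul_le_mul_of_nonneg_left h8 hdinv0.le
    have h10 : (1/(d:ℝ)) * ((d:ℝ) * s) = s := by field_simp
    rw [h10] at h9
    linarith
  -- w
  have hw : 0.5 * (1 / d) ≤ ρ - 1 := by
    by_contra h
    push Not at h
    have h1 : ρ ≤ 1 + 0.5 * (1 / d) := by linarith
    have h2 : ρ ≤ Real.exp (0.5 * (1 / d)) := by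
      refine h1.trans ?_
      have := Real.add_one_le_exp (0.5 * (1 / (d:ℝ)))
      linarith
    have h4 : ρ ^ d ≤ Real.exp (0.5) := by
      have h5 : ρ ^ d ≤ Real.exp (0.5 * (1 / d)) ^ d := by gcongr
      rw [← Real.exp_nat_mul] at h5
      have h6 : (d:ℝ) * (0.5 * (1 / d)) = 0.5 := by field_simp
      rwa [h6] at h5
    have h5 : Real.exp 0.5 < 1.93 := by
      have h6 : Real.exp 0.5 ^ 2 < 1.93 ^ 2 := by
        rw [← Real.exp_nat_mul]
        have h7 := Real.exp_one_lt_d9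
        norm_num
        norm_num at h7
        linarith
      exact lt_of_pow_lt_pow_left₀ 2 (by norm_num) h6
    linarith
  -- γ
  have hγn : ‖x ^ k‖ = ρ ^ k := by rw [norm_pow, hnx]
  have hkne : k ≠ 0 := by omega
  have hR1 : 1 < ρ ^ k := one_lt_pow₀ hρ1 hkne
  have hRβ : ρ ^ k < b ^ k := pow_lt_pow_left₀ hρb hρ0.le hkne
  by_cases hbig : ρ ^ k + 1 < (ρ ^ k) ^ 2
  · apply escape_large
    · rw [hγn]; exact hR1
    · rw [hγn]; exact hbig
    · intro h
      have : ‖x ^ k‖ = b ^ k := by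
        rw [h, Complex.norm_real, Real.norm_eq_abs, abs_of_pos (by positivity)]
      rw [hγn] at this
      linarith
  push Not at hbig
  set R : ℝ := ρ ^ k with hR
  have hRphi : R ≤ 1.6181 := by
    by_contra h
    push Not at h
    have h1 : 0 < (R - 1.6181) * (R - 1.6181) := mul_pos (by linarith) (by linarith)
    have h2 : (R - 1.6181) * (R - 1.6181) = R ^ 2 - 3.2362 * R + 1.6181 ^ 2 := by ring
    rw [h2] at h1
    linarith
  -- 4k < 3d
  have h43 : 4 * k < 3 * d := by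
    by_contra h
    push Not at h
    have h1 : ρ ^ (3 * d) ≤ ρ ^ (4 * k) := pow_le_pow_right₀ hρ1.le h
    have h2 : ρ ^ (4 * k) = R ^ 4 := by rw [hR, ← pow_mul]; congr 1; ring
    have h4 : ρ ^ (3 * d) = (ρ ^ d) ^ 3 := by rw [← pow_mul]; congr 1; ring
    have h5 : (1.93:ℝ) ^ 3 ≤ (ρ ^ d) ^ 3 := by gcongr
    have h6 : R ^ 4 ≤ 1.6181 ^ 4 := by gcongr
    rw [h2, h4] at h1
    norm_num at h5 h6
    linarith
  have h43' : (4:ℝ) * k < 3 * d := by exact_mod_cast h43
  have hy34 : y < 3 / 4 := by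
    rw [hy, div_lt_iff₀ hd0]; linarith
  have hyd : 1 / d ≤ y := by
    rw [hy]; gcongr
  have hy0 : 0 < y := by positivity
  -- β
  set β : ℝ := b ^ k with hβ
  have hβ0 : 0 < β := by positivity
  -- ε
  set ε : ℝ := 1 - (1 - s) ^ k with hε
  have hRβs : R = β * (1 - s) ^ k := by rw [hR, hρs, mul_pow]
  have hεks : ε ≤ k * s := by
    have := one_add_mul_le_pow (a := -s) (by linarith) k
    rw [hε]
    have h1 : (1 + -s) ^ k = (1 - s) ^ k := by ring
    rw [h1] at this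
    linarith
  have hε0 : 0 ≤ ε := by
    rw [hε]
    have : (1 - s) ^ k ≤ 1 := pow_le_one₀ (by linarith) (by linarith)
    linarith
  have hεeq : (β - R) / β = ε := by
    rw [hRβs, hε]; field_simp
  have hkd : (k:ℝ) = y * d := by rw [hy]; field_simp
  have hks : (k:ℝ) * s ≤ 0.9 * y * (1 / d) := by
    calc (k:ℝ) * s ≤ k * (0.9 * (1 / d) ^ 2) := by gcongr
      _ = 0.9 * y * (1 / d) := by rw [hkd]; field_simp
  have hε052 : ε ≤ 0.052 := by
    have h1 : 0.9 * y * (1 / d) ≤ 0.9 * (3/4) * (1 / 13) := by gcongr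
    have h2 : (0.9:ℝ) * (3/4) * (1 / 13) ≤ 0.052 := by norm_num
    linarith
  -- R - 1 ≥ k (ρ - 1)
  have hRk : (k:ℝ) * (ρ - 1) ≤ R - 1 := by
    have := one_add_mul_le_pow (a := ρ - 1) (by linarith) k
    have h1 : (1 + (ρ - 1)) ^ k = R := by rw [hR]; ring
    rw [h1] at this
    linarith
  have hδ : ε / (R - 1) ≤ 1.8 * (1 / d) := by
    rw [div_le_iff₀ (by linarith)]
    have h1 : (k:ℝ) * (0.5 * (1 / d)) ≤ R - 1 := le_trans (by gcongr) hRk
    have h2 : (k:ℝ) * (0.5 * (1 / d)) = 0.5 * y := by rw [hy]; ring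
    rw [h2] at h1
    have h4 : 1.8 * (1 / d) * (0.5 * y) ≤ 1.8 * (1 / d) * (R - 1) := by gcongr
    have h5 : 1.8 * (1 / (d:ℝ)) * (0.5 * y) = 0.9 * y * (1 / d) := by ring
    linarith
  have hβ17 : β ≤ 1.707 := by
    have h1 : R = β * (1 - ε) := by rw [hRβs, hε]; ring
    have h2 : β * 0.948 ≤ β * (1 - ε) := mul_le_mul_of_nonneg_left (by linarith) hβ0.le
    rw [← h1] at h2
    linarith
  have hεβ : ε * (β - 1) ≤ 0.052 * 0.707 := by
    apply mul_le_mul hε052 (by linarith) (by linarith) (by norm_num)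
  -- the norm of γ - 1
  have hγre : (x ^ k).re = R * cos (k * θ) := by
    have h1 : x ^ k = (R : ℂ) * Complex.exp ((k * θ : ℝ) * Complex.I) := by
      rw [hxdef, mul_pow, ← Complex.exp_nat_mul, hR]
      push_cast
      ring_nf
    rw [h1, Complex.re_ofReal_mul, Complex.exp_ofReal_mul_I_re]
  have hg1 : ‖x ^ k - 1‖ ^ 2 = R ^ 2 - 2 * (R * cos (k * θ)) + 1 := by
    rw [← hγre]
    have h2 : R ^ 2 = ‖x ^ k‖ ^ 2 := by rw [hγn]
    rw [h2, ← Complex.normSq_eq_norm_sq, ← Complex.normSq_eq_norm_sq]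
    simp only [Complex.normSq_apply, Complex.sub_re, Complex.sub_im, Complex.one_re,
      Complex.one_im]
    ring
  have hgn : 0 ≤ ‖x ^ k - 1‖ := norm_nonneg _
  intro M
  refine criterion (ε := ε) (by rw [hγn]; exact hR1) (by rw [hγn]; exact hRβ.le)
    (by linarith) (by rw [hγn, hεeq]) (by norm_num at hεβ; linarith) ?_ M
  rw [hγn]
  by_cases hcase : (k:ℝ) * θ ≤ π
  · -- first case
    have hy2 : y < 1 / 2 := by
      rw [hy, div_lt_iff₀ hd0]
      by_contra h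
      push Not at h
      have : 1 / 2 * (d:ℝ) * θ ≤ (k:ℝ) * θ := mul_le_mul_of_nonneg_right h hθ0.le
      linarith
    have hβ1 : β * (1 - 0.8 * y) ≤ 1 := by
      have h1 : β ≤ (1 + 0.8 / d) ^ k := by rw [hβ]; gcongr
      have h2 : 1 - 0.8 * y ≤ (1 - 0.8 / d) ^ k := by
        have := one_add_mul_le_pow (a := -(0.8 / (d:ℝ))) (by
          have : (0.8:ℝ) / d ≤ 1 := by rw [div_le_one hd0]; linarith
          linarith) k
        have h4 : (1 + -(0.8 / (d:ℝ))) ^ k = (1 - 0.8 / d) ^ k := by ring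
        rw [h4] at this
        refine le_trans (le_of_eq ?_) this
        rw [hy]; ring
      have h4 : 0 ≤ (1 - 0.8 / (d:ℝ)) := by
        have : (0.8:ℝ) / d ≤ 1 := by rw [div_le_one hd0]; linarith
        linarith
      calc β * (1 - 0.8 * y) ≤ (1 + 0.8 / d) ^ k * (1 - 0.8 / d) ^ k := by
            apply mul_le_mul h1 h2 (by linarith) (by positivity)
        _ = (1 - (0.8 / (d:ℝ)) ^ 2) ^ k := by rw [← mul_pow]; ring
        _ ≤ 1 := by
            apply pow_le_one₀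
            · have h5 : (0.8 / (d:ℝ)) ≤ 1 := by linarith
              have h6 : 0 ≤ (0.8 / (d:ℝ)) := by positivity
              have h7 : (0.8 / (d:ℝ)) ^ 2 ≤ 1 := pow_le_one₀ h6 h5
              linarith
            · have : 0 ≤ (0.8 / (d:ℝ)) ^ 2 := by positivity
              linarith
    have hβy : β - 1 ≤ 4 / 3 * y := by
      have h1 : (β - 1) * (1 - 0.8 * y) ≤ 0.8 * y := by
        have : (β - 1) * (1 - 0.8 * y) = β * (1 - 0.8 * y) - 1 + 0.8 * y := by ring
        linarith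
      have h2 : (β - 1) * 0.6 ≤ (β - 1) * (1 - 0.8 * y) := by
        apply mul_le_mul_of_nonneg_left _ (by linarith)
        linarith
      linarith
    have hgy : 4 * y ≤ ‖x ^ k - 1‖ := by
      have h1 : 2 / π * (k * θ / 2) ≤ sin (k * θ / 2) :=
        Real.mul_le_sin (by positivity) (by linarith)
      have h2 : 2 * y ≤ 2 / π * (k * θ / 2) := by
        have h4 : 2 / π * (k * θ / 2) = k * θ / π := by ring
        rw [h4, le_div_iff₀ hπ]
        have h5 : 2 * y * π = (k / d) * (2 * π) := by rw [hy]; ring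
        rw [h5]
        calc (k / d) * (2 * π) ≤ (k / d) * (d * θ) := by gcongr
          _ = k * θ := by field_simp
      have h4 : cos (k * θ) = 1 - 2 * sin (k * θ / 2) ^ 2 := by
        have := Real.cos_two_mul (k * θ / 2)
        have h5 := Real.sin_sq_add_cos_sq (k * θ / 2)
        rw [show 2 * (k * θ / 2) = k * θ by ring] at this
        linarith
      have h5 : (4 * y) ^ 2 ≤ ‖x ^ k - 1‖ ^ 2 := by
        rw [hg1, h4]
        have h6 : 0 ≤ 2 * y := by positivity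
        have h7 : (2 * y) ^ 2 ≤ sin (k * θ / 2) ^ 2 := by
          apply pow_le_pow_left₀ h6; linarith
        have h8 : R ^ 2 - 2 * (R * (1 - 2 * sin (k * θ / 2) ^ 2)) + 1
            = (R - 1) ^ 2 + 4 * R * sin (k * θ / 2) ^ 2 := by ring
        rw [h8]
        have h9 : sin (k * θ / 2) ^ 2 ≤ R * sin (k * θ / 2) ^ 2 :=
          le_mul_of_one_le_left (sq_nonneg _) hR1.le
        have h10 : (4 * y) ^ 2 = 4 * (2 * y) ^ 2 := by ring
        have h11 := sq_nonneg (R - 1)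
        have h12 : 4 * R * sin (k * θ / 2) ^ 2 = 4 * (R * sin (k * θ / 2) ^ 2) := by ring
        rw [h10, h12]
        linarith
      exact le_of_sq_le_sq h5 hgn
    have h1 : 1 - 0.052 * 0.707 ≤ 1 - ε * (β - 1) := by linarith
    have h2 : 4 * y * (1 - 0.052 * 0.707) ≤ ‖x ^ k - 1‖ * (1 - ε * (β - 1)) := by
      apply mul_le_mul hgy h1 (by norm_num) hgn
    norm_num at h2 hδ hyd ⊢
    linarith
  · -- second case
    push Not at hcase
    have hkθ : (k:ℝ) * θ ≤ 3 * π / 2 + π / 8 := by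
      have h1 : (k:ℝ) * θ ≤ 3 / 4 * d * θ := mul_le_mul_of_nonneg_right (by linarith) hθ0.le
      have h2 : (d:ℝ) * θ ≤ 13 / 12 * (2 * π) := by
        have h4 : (d:ℝ) ≤ 13 / 12 * (d - 1) := by linarith
        have h5 : (d:ℝ) * θ ≤ 13 / 12 * (d - 1) * θ := mul_le_mul_of_nonneg_right h4 hθ0.le
        have h6 : 13 / 12 * ((d:ℝ) - 1) * θ = 13 / 12 * (((d:ℝ) - 1) * θ) := by ring
        rw [h6] at h5
        linarith
      have h7 : 3 / 4 * (d:ℝ) * θ = 3 / 4 * ((d:ℝ) * θ) := by ring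
      rw [h7] at h1
      linarith
    have hcos : cos (k * θ) ≤ 0.3927 := by
      by_cases h : (k:ℝ) * θ ≤ 3 * π / 2
      · have h1 : cos (k * θ) = - cos (k * θ - π) := by
          rw [Real.cos_sub_pi]; ring
        have h2 : 0 ≤ cos (k * θ - π) :=
          Real.cos_nonneg_of_mem_Icc ⟨by linarith, by linarith⟩
        rw [h1]; norm_num; linarith
      · push Not at h
        have h1 : cos (k * θ) = sin (k * θ - 3 * π / 2) := by
          have h2 : (k:ℝ) * θ = (k * θ - 3 * π / 2) + π / 2 + π := by ring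
          conv_lhs => rw [h2]
          rw [Real.cos_add_pi, Real.cos_add_pi_div_two]; ring
        rw [h1]
        have h2 : sin (k * θ - 3 * π / 2) ≤ k * θ - 3 * π / 2 := Real.sin_le (by linarith)
        linarith
    have hg11 : 1.1 ≤ ‖x ^ k - 1‖ := by
      have h5 : (1.1:ℝ) ^ 2 ≤ ‖x ^ k - 1‖ ^ 2 := by
        rw [hg1]
        have h1 : R * cos (k * θ) ≤ R * 0.3927 := by gcongr
        have h2 : R ≤ R ^ 2 := by
          have : R ^ 2 = R * R := by ring
          rw [this]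
          exact le_mul_of_one_le_left (by linarith) hR1.le
        norm_num at h1 ⊢
        linarith
      exact le_of_sq_le_sq h5 hgn
    have h1 : 1 - 0.052 * 0.707 ≤ 1 - ε * (β - 1) := by linarith
    have h2 : 1.1 * (1 - 0.052 * 0.707) ≤ ‖x ^ k - 1‖ * (1 - ε * (β - 1)) := by
      apply mul_le_mul hg11 h1 (by norm_num) hgn
    norm_num at h2 hδ hdinv ⊢
    linarith

end Q2.BP
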