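import Pool.Agent.Q2.BP.Core

/-!
# A root of `x^d - x - 1` next to the real one
-/

namespace Q2.BP

open Real

/-- A root of `x^d = x + 1` of argument between `2π/d` and `2π/(d-1)` and modulus `> 1`. -/
theorem exists_root {d : ℕ} (hd : 5 ≤ d) : ∃ ρ θ : ℝ, 1 < ρ ∧ 2 * π < d * θ ∧
    ((d : ℝ) - 1) * θ < 2 * π ∧
    ((ρ : ℂ) * Complex.exp (θ * Complex.I)) ^ d = (ρ : ℂ) * Complex.exp (θ * Complex.I) + 1 := by
  have hd' : (5 : ℝ) ≤ d := by exact_mod_cast hd
  have hπ := Real.pi_pos
  set f : ℝ → ℝ := fun θ => sin θ * sin (2 * π - ((d : ℝ) - 1) * θ) ^ (d - 1) -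
    sin (d * θ - 2 * π) ^ d with hf
  set a : ℝ := 2 * π / d with ha
  set c : ℝ := 2 * π / ((d : ℝ) - 1) with hc
  have hd0 : (0 : ℝ) < d := by linarith
  have hd1 : (0 : ℝ) < (d : ℝ) - 1 := by linarith
  have hac : a < c := by
    rw [ha, hc]
    exact div_lt_div_of_pos_left (by positivity) hd1 (by linarith)
  have ha0 : 0 < a := by positivity
  have hda : (d : ℝ) * a = 2 * π := by rw [ha]; field_simp
  have hdc : ((d : ℝ) - 1) * c = 2 * π := by rw [hc]; field_simp
  have hc2 : c ≤ π / 2 := by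
    rw [hc, div_le_iff₀ hd1]; nlinarith
  have hfa : 0 < f a := by
    simp only [hf]
    rw [hda, sub_self, sin_zero, zero_pow (by omega), sub_zero]
    have h1 : 2 * π - ((d : ℝ) - 1) * a = a := by linarith
    rw [h1]
    have : 0 < sin a := sin_pos_of_pos_of_lt_pi ha0 (by linarith)
    positivity
  have hfc : f c < 0 := by
    simp only [hf]
    have h1 : 2 * π - ((d : ℝ) - 1) * c = 0 := by linarith
    have h2 : (d : ℝ) * c - 2 * π = c := by linarith
    rw [h1, h2, sin_zero, zero_pow (by omega), mul_zero, zero_sub]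
    have : 0 < sin c := sin_pos_of_pos_of_lt_pi (by linarith) (by linarith)
    have := pow_pos this d
    linarith
  have hcont : ContinuousOn f (Set.Icc a c) := by
    apply Continuous.continuousOn
    simp only [hf]
    fun_prop
  obtain ⟨θ, hθ, hθ0⟩ := intermediate_value_Icc' hac.le hcont ⟨hfc.le, hfa.le⟩
  have hθa : a < θ := by
    refine lt_of_le_of_ne hθ.1 ?_
    rintro rfl; linarith
  have hθc : θ < c := by
    refine lt_of_le_of_ne hθ.2 ?_
    rintro rfl; linarith
  set ψ : ℝ := d * θ - 2 * π with hψ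
  set φ : ℝ := 2 * π - ((d : ℝ) - 1) * θ with hφ
  have hψ0 : 0 < ψ := by rw [hψ]; nlinarith
  have hφ0 : 0 < φ := by rw [hφ]; nlinarith
  have hsum : φ = θ - ψ := by rw [hψ, hφ]; ring
  have hψθ : ψ < θ := by linarith
  have hφθ : φ < θ := by linarith
  have hsψ : 0 < sin ψ := sin_pos_of_pos_of_lt_pi hψ0 (by linarith)
  have hsφ : 0 < sin φ := sin_pos_of_pos_of_lt_pi hφ0 (by linarith)
  have hsθ : 0 < sin θ := sin_pos_of_pos_of_lt_pi (by linarith) (by linarith)
  have heq : sin θ * sin φ ^ (d - 1) = sin ψ ^ d := by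
    have : f θ = 0 := hθ0
    simp only [hf] at this
    rw [← hψ, ← hφ] at this
    linarith
  set ρ : ℝ := sin ψ / sin φ with hρ
  have hρ0 : 0 < ρ := by positivity
  have hρd : ρ ^ d = sin θ / sin φ := by
    rw [hρ, div_pow, ← heq]
    rw [div_eq_div_iff (by positivity) (by positivity)]
    have : sin φ ^ d = sin φ ^ (d - 1) * sin φ := by
      rw [← pow_succ]; congr 1; omega
    rw [this]; ring
  have hρ1 : 1 < ρ := by
    by_contra h
    push Not at h
    have h1 : ρ ^ d ≤ 1 := pow_le_one₀ hρ0.le h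
    rw [hρd, div_le_one hsφ] at h1
    have h2 : sin φ < sin θ := by
      apply sin_lt_sin_of_lt_of_le_pi_div_two
      · linarith
      · linarith
      · exact hφθ
    linarith
  refine ⟨ρ, θ, hρ1, ?_, ?_, ?_⟩
  · linarith
  · rw [hφ] at hφ0; linarith
  · rw [mul_pow, ← Complex.exp_nat_mul]
    have h1 : (d : ℂ) * (θ * Complex.I) = (ψ : ℂ) * Complex.I + 2 * π * Complex.I := by
      rw [hψ]; push_cast; ring
    rw [h1, Complex.exp_add, Complex.exp_two_pi_mul_I, mul_one, Complex.exp_mul_I,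
      Complex.exp_mul_I]
    have h2 : ((ρ : ℂ)) ^ d = ((sin θ / sin φ : ℝ) : ℂ) := by
      rw [← hρd]; push_cast; rfl
    rw [h2]
    have hre : sin θ / sin φ * cos ψ = ρ * cos θ + 1 := by
      have h3 : sin φ = sin θ * cos ψ - cos θ * sin ψ := by rw [hsum]; exact Real.sin_sub θ ψ
      have h4 : ρ * sin φ = sin ψ := by rw [hρ]; field_simp
      rw [div_mul_eq_mul_div, div_eq_iff hsφ.ne']
      linear_combination (-cos θ) * h4 - h3
    have him : sin θ / sin φ * sin ψ = ρ * sin θ := by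
      rw [hρ]; ring
    rw [← Complex.ofReal_cos, ← Complex.ofReal_sin, ← Complex.ofReal_cos, ← Complex.ofReal_sin]
    generalize sin θ / sin φ = A at hre him
    have hre' : ((A * cos ψ : ℝ) : ℂ) = ((ρ * cos θ + 1 : ℝ) : ℂ) := by rw [hre]
    have him' : ((A * sin ψ : ℝ) : ℂ) = ((ρ * sin θ : ℝ) : ℂ) := by rw [him]
    rw [Complex.ofReal_mul, Complex.ofReal_add, Complex.ofReal_mul, Complex.ofReal_one] at hre'
    rw [Complex.ofReal_mul, Complex.ofReal_mul] at him'
    linear_combination hre' + Complex.I * him'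

end Q2.BP
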